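import Pool.Agent.Y645.UL.Bas

/-!
UL-SPC, UL-REL: multiplicative relations and polynomials.
-/

set_option autoImplicit false

namespace Pool.Agent.Y388.UL

open MvPolynomial Module Pool.Agent.Y645.UL

/-- a multiplicative relation as an equality of monomials with natural exponents -/
theorem split {M N : Type} [Field M] [Fintype N] (u : N → Mˣ) (a : N → ℤ) :
    ∏ n, u n ^ a n = 1 ↔
      ∏ n, (u n : M) ^ (a n).toNat = ∏ n, (u n : M) ^ (-(a n)).toNat := by
  have h1 : ∏ n, u n ^ a n = (∏ n, u n ^ (a n).toNat) / ∏ n, u n ^ (-(a n)).toNat := by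
    rw [← Finset.prod_div_distrib]
    refine Finset.prod_congr rfl fun n _ => ?_
    rw [← zpow_natCast (u n) (a n).toNat, ← zpow_natCast (u n) (-(a n)).toNat, div_eq_mul_inv, ← zpow_sub]
    congr 1
    exact (Int.toNat_sub_toNat_neg (a n)).symm
  rw [h1, div_eq_one, ← Units.val_inj]
  push_cast
  rfl

theorem t_SPC : S_SPC := by
  intro k L L' ι N _ _ _ _ _ _ _ G w x z z' hS hz hz' a ha
  rw [mem_Lam] at ha ⊢
  rw [split] at ha ⊢
  have h1 := hS (∏ n, G n ^ (a n).toNat - ∏ n, G n ^ (-(a n)).toNat) (by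
    rw [map_sub, map_prod, map_prod, sub_eq_zero]
    simp only [map_pow, ← hz]
    exact ha)
  rw [map_sub, map_prod, map_prod, sub_eq_zero] at h1
  simp only [map_pow, ← hz'] at h1
  exact h1

theorem t_REL : S_REL := by
  intro k L ι _ _ _ _ y A h
  ext a
  rw [mem_Lam, split]
  have h1 := h (∏ n, X n ^ (a n).toNat - ∏ n, X n ^ (-(a n)).toNat)
  rw [map_sub, map_prod, map_prod, sub_eq_zero] at h1
  simp only [map_pow, aeval_X] at h1
  rw [← h1]
  constructor
  · intro ha x hx
    rw [map_sub, map_prod, map_prod, sub_eq_zero]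
    simp only [map_pow, eval_X]
    exact (split x a).1 (ha x hx)
  · intro ha x hx
    have h2 := ha x hx
    rw [map_sub, map_prod, map_prod, sub_eq_zero] at h2
    simp only [map_pow, eval_X] at h2
    exact (split x a).2 h2

end Pool.Agent.Y388.UL
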